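import Mathlib
import Pool.Agent.H4.RD4

set_option autoImplicit false

namespace Pool.Agent.Results.MP_145108_al.NotLeft

/-- There is a ring, integral over its center, whose lattice of right ideals is distributive
but whose lattice of left ideals is not distributive. -/
theorem result : ∃ (A : Type) (_ : Ring A),
      (∀ X Y Z : Submodule Aᵐᵒᵖ A, X ⊓ (Y ⊔ Z) = (X ⊓ Y) ⊔ (X ⊓ Z)) ∧
      Algebra.IsIntegral (Subring.center A) A ∧
      ¬ (∀ X Y Z : Submodule A A, X ⊓ (Y ⊔ Z) = (X ⊓ Y) ⊔ (X ⊓ Z)) :=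
  Pool.Agent.H4.RD.exists_example

end Pool.Agent.Results.MP_145108_al.NotLeft
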